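import Mathlib

set_option autoImplicit false

open Finset

namespace Pool.Agent.Results.MP_67c61c_pr.LazyPseudoGap

noncomputable section

variable {Ω : Type} [Fintype Ω] [DecidableEq Ω]

/-- `M` is an irreducible row-stochastic matrix with stationary distribution `π`. -/
structure IsChain (M : Matrix Ω Ω ℝ) (π : Ω → ℝ) : Prop where
  nonneg : ∀ i j, 0 ≤ M i j
  row_sum : ∀ i, ∑ j, M i j = 1
  irreducible : ∀ i j, ∃ n : ℕ, 0 < (M ^ n) i j
  pi_nonneg : ∀ i, 0 ≤ π i
  pi_sum : ∑ i, π i = 1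
  stationary : ∀ j, ∑ i, π i * M i j = π j

/-- Time reversal `M^*(i,j) = π(j) M(j,i) / π(i)`. -/
def rev (π : Ω → ℝ) (M : Matrix Ω Ω ℝ) : Matrix Ω Ω ℝ := fun i j => π j * M j i / π i

/-- Multiplicative reversiblization `M^† = M^* M`. -/
def dagger (π : Ω → ℝ) (M : Matrix Ω Ω ℝ) : Matrix Ω Ω ℝ := rev π M * M

/-- The second largest eigenvalue (counted with multiplicity) of a matrix which is self-adjoint
in `L²(π)`, has largest eigenvalue `1` and fixes the constants: the largest eigenvalue with an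
eigenvector orthogonal to the constants. -/
def lam2 (π : Ω → ℝ) (A : Matrix Ω Ω ℝ) : ℝ :=
  sSup {l : ℝ | ∃ f : Ω → ℝ, f ≠ 0 ∧ ∑ x, π x * f x = 0 ∧ A.mulVec f = l • f}

/-- The spectral gap `1 - λ₂(A)`. -/
def gap (π : Ω → ℝ) (A : Matrix Ω Ω ℝ) : ℝ := 1 - lam2 π A

/-- The pseudo spectral gap `max_{k ≥ 1} γ((M^k)^†)/k`. -/
def gps (π : Ω → ℝ) (M : Matrix Ω Ω ℝ) : ℝ :=
  sSup {r : ℝ | ∃ k : ℕ, 1 ≤ k ∧ r = gap π (dagger π (M ^ k)) / k}

/-- The `α`-lazy version `α I + (1-α) M`. -/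
def lazy (α : ℝ) (M : Matrix Ω Ω ℝ) : Matrix Ω Ω ℝ := α • (1 : Matrix Ω Ω ℝ) + (1 - α) • M

/-- Weighted inner product. -/
def ip (π : Ω → ℝ) (f g : Ω → ℝ) : ℝ := ∑ x, π x * (f x * g x)

/-- Matrices preserving `π` and the constants. -/
structure Pres (π : Ω → ℝ) (B : Matrix Ω Ω ℝ) : Prop where
  nonneg : ∀ i j, 0 ≤ B i j
  row_sum : ∀ i, ∑ j, B i j = 1
  stat : ∀ j, ∑ i, π i * B i j = π j

theorem Pres.one (π : Ω → ℝ) : Pres π (1 : Matrix Ω Ω ℝ) := by
  refine ⟨fun i j => ?_, fun i => ?_, fun j => ?_⟩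
  · rw [Matrix.one_apply]; split_ifs <;> norm_num
  · simp [Matrix.one_apply]
  · simp [Matrix.one_apply]

theorem Pres.mul {π : Ω → ℝ} {B C : Matrix Ω Ω ℝ} (hB : Pres π B) (hC : Pres π C) :
    Pres π (B * C) := by
  refine ⟨fun i j => ?_, fun i => ?_, fun j => ?_⟩
  · rw [Matrix.mul_apply]
    exact sum_nonneg fun k _ => mul_nonneg (hB.nonneg _ _) (hC.nonneg _ _)
  · simp only [Matrix.mul_apply]
    rw [sum_comm]
    simp only [← mul_sum, hC.row_sum, mul_one, hB.row_sum]
  · simp only [Matrix.mul_apply, mul_sum]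
    rw [sum_comm]
    simp only [← mul_assoc, ← sum_mul, hB.stat, hC.stat]

theorem Pres.pow {π : Ω → ℝ} {B : Matrix Ω Ω ℝ} (hB : Pres π B) (k : ℕ) : Pres π (B ^ k) := by
  induction k with
  | zero => rw [pow_zero]; exact Pres.one π
  | succ k ih => rw [pow_succ]; exact ih.mul hB

theorem Pres.mean {π : Ω → ℝ} {B : Matrix Ω Ω ℝ} (hB : Pres π B) (f : Ω → ℝ) :
    ∑ x, π x * B.mulVec f x = ∑ x, π x * f x := by
  simp only [Matrix.mulVec, dotProduct, mul_sum]
  rw [sum_comm]
  simp only [← mul_assoc, ← sum_mul, hB.stat]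

theorem Pres.contract {π : Ω → ℝ} (hπ : ∀ x, 0 ≤ π x) {B : Matrix Ω Ω ℝ} (hB : Pres π B)
    (f : Ω → ℝ) : ip π (B.mulVec f) (B.mulVec f) ≤ ip π f f := by
  have h1 : ∀ x, B.mulVec f x * B.mulVec f x ≤ ∑ y, B x y * (f y * f y) := by
    intro x
    have h2 := (even_two.convexOn_pow (𝕜 := ℝ)).map_sum_le (t := univ) (w := fun y => B x y)
      (p := fun y => f y) (fun y _ => hB.nonneg x y) (hB.row_sum x) (fun y _ => Set.mem_univ _)
    simp only [smul_eq_mul] at h2
    calc B.mulVec f x * B.mulVec f x = (∑ y, B x y * f y) ^ 2 := by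
          rw [sq]; rfl
      _ ≤ ∑ y, B x y * f y ^ 2 := h2
      _ = _ := sum_congr rfl fun y _ => by ring
  calc ip π (B.mulVec f) (B.mulVec f) ≤ ∑ x, π x * ∑ y, B x y * (f y * f y) :=
        sum_le_sum fun x _ => mul_le_mul_of_nonneg_left (h1 x) (hπ x)
    _ = ip π f f := by
        simp only [mul_sum]
        rw [sum_comm]
        simp only [← mul_assoc, ← sum_mul, hB.stat]
        unfold ip
        exact sum_congr rfl fun x _ => by ring

theorem adj {π : Ω → ℝ} (hπ : ∀ x, 0 < π x) (B : Matrix Ω Ω ℝ) (f g : Ω → ℝ) :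
    ip π ((dagger π B).mulVec f) g = ip π (B.mulVec f) (B.mulVec g) := by
  have h1 : (dagger π B).mulVec f = (rev π B).mulVec (B.mulVec f) := by
    rw [dagger, Matrix.mulVec_mulVec]
  rw [h1]
  set h := B.mulVec f with hh
  simp only [ip, Matrix.mulVec, dotProduct, rev, mul_sum, sum_mul]
  rw [sum_comm]
  refine sum_congr rfl fun k _ => sum_congr rfl fun i _ => ?_
  have := (hπ i).ne'
  field_simp

theorem ip_self_nonneg {π : Ω → ℝ} (hπ : ∀ x, 0 ≤ π x) (f : Ω → ℝ) : 0 ≤ ip π f f :=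
  sum_nonneg fun x _ => mul_nonneg (hπ x) (mul_self_nonneg _)

theorem ip_self_pos {π : Ω → ℝ} (hπ : ∀ x, 0 < π x) {f : Ω → ℝ} (hf : f ≠ 0) : 0 < ip π f f := by
  obtain ⟨x, hx⟩ := Function.ne_iff.mp hf
  refine sum_pos' (fun x _ => mul_nonneg (hπ x).le (mul_self_nonneg _)) ⟨x, mem_univ _, ?_⟩
  exact mul_pos (hπ x) (mul_self_pos.mpr hx)

/-- eigenvalues of the reversiblization on mean-zero functions -/
theorem eig_eq {π : Ω → ℝ} (hπ : ∀ x, 0 < π x) {B : Matrix Ω Ω ℝ} {f : Ω → ℝ} {l : ℝ}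
    (h : (dagger π B).mulVec f = l • f) : l * ip π f f = ip π (B.mulVec f) (B.mulVec f) := by
  rw [← adj hπ, h]
  simp only [ip, Pi.smul_apply, smul_eq_mul, mul_sum]
  exact sum_congr rfl fun x _ => by ring

theorem bdd {π : Ω → ℝ} (hπ : ∀ x, 0 < π x) {B : Matrix Ω Ω ℝ} (hB : Pres π B) :
    BddAbove {l : ℝ | ∃ f : Ω → ℝ, f ≠ 0 ∧ ∑ x, π x * f x = 0 ∧
      (dagger π B).mulVec f = l • f} := by
  refine ⟨1, ?_⟩
  rintro l ⟨f, hf, -, hl⟩
  have h1 := eig_eq hπ hl
  have h2 := hB.contract (fun x => (hπ x).le) f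
  have h3 := ip_self_pos hπ hf
  by_contra hcon
  push Not at hcon
  nlinarith

theorem lam2_nonneg {π : Ω → ℝ} (hπ : ∀ x, 0 < π x) (B : Matrix Ω Ω ℝ) :
    0 ≤ lam2 π (dagger π B) := by
  refine Real.sSup_nonneg ?_
  rintro l ⟨f, hf, -, hl⟩
  have h1 := eig_eq hπ hl
  have h2 := ip_self_nonneg (fun x => (hπ x).le) (B.mulVec f)
  have h3 := ip_self_pos hπ hf
  by_contra hcon
  push Not at hcon
  nlinarith

theorem ip_add {π : Ω → ℝ} (f g : Ω → ℝ) (t : ℝ) :
    ip π (f + t • g) (f + t • g) = ip π f f + 2 * t * ip π f g + t ^ 2 * ip π g g := by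
  simp only [ip, Pi.add_apply, Pi.smul_apply, smul_eq_mul, mul_sum, ← sum_add_distrib]
  exact sum_congr rfl fun x _ => by ring

/-- existence of a maximiser of the Rayleigh quotient which is an eigenvector -/
theorem exists_eig [Nontrivial Ω] {π : Ω → ℝ} (hπ : ∀ x, 0 < π x) {B : Matrix Ω Ω ℝ}
    (hB : Pres π B) :
    ∃ (μ : ℝ) (f : Ω → ℝ), f ≠ 0 ∧ ∑ x, π x * f x = 0 ∧ (dagger π B).mulVec f = μ • f ∧
      ∀ g : Ω → ℝ, ∑ x, π x * g x = 0 → ip π (B.mulVec g) (B.mulVec g) ≤ μ * ip π g g := by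
  classical
  set K : Set (Ω → ℝ) := {f | ∑ x, π x * f x = 0 ∧ ip π f f = 1} with hK
  have hcont1 : Continuous fun f : Ω → ℝ => ∑ x, π x * f x := by fun_prop
  have hcont2 : Continuous fun f : Ω → ℝ => ip π f f := by unfold ip; fun_prop
  have hclosed : IsClosed K :=
    (isClosed_eq hcont1 continuous_const).inter (isClosed_eq hcont2 continuous_const)
  obtain ⟨x₀, y₀, hxy⟩ := exists_pair_ne Ω
  obtain ⟨z, hz⟩ := Finite.exists_min π
  have hbdd : Bornology.IsBounded K := by
    rw [isBounded_iff_forall_norm_le]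
    refine ⟨1 / π z + 1, fun f hf => ?_⟩
    rw [pi_norm_le_iff_of_nonneg (by have := hπ z; positivity)]
    intro x
    have h1 : π x * (f x * f x) ≤ 1 := by
      rw [← hf.2]
      exact single_le_sum (f := fun x => π x * (f x * f x))
        (fun x _ => mul_nonneg (hπ x).le (mul_self_nonneg _)) (mem_univ x)
    have h2 : f x * f x ≤ 1 / π z := by
      rw [le_div_iff₀ (hπ z)]
      have := hz x
      nlinarith [mul_self_nonneg (f x)]
    rw [Real.norm_eq_abs, abs_le]
    have h3 : 0 < 1 / π z := one_div_pos.mpr (hπ z)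
    constructor <;> nlinarith
  have hcomp : IsCompact K := Metric.isCompact_of_isClosed_isBounded hclosed hbdd
  have hne : K.Nonempty := by
    let u : Ω → ℝ := fun x => if x = x₀ then π y₀ else if x = y₀ then -π x₀ else 0
    have hu0 : u ≠ 0 := by
      intro h
      have := congrFun h x₀
      simp only [u, if_true, Pi.zero_apply] at this
      exact (hπ y₀).ne' this
    have hum : ∑ x, π x * u x = 0 := by
      rw [Finset.sum_eq_add x₀ y₀ hxy]
      · simp only [u, if_true, if_neg hxy.symm]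
        ring
      · rintro c - ⟨h1, h2⟩
        simp only [u, if_neg h1, if_neg h2, mul_zero]
      · simp
      · simp
    have hup := ip_self_pos hπ hu0
    refine ⟨(1 / Real.sqrt (ip π u u)) • u, ?_, ?_⟩
    · simp only [Pi.smul_apply, smul_eq_mul]
      have : ∑ x, π x * (1 / Real.sqrt (ip π u u) * u x) =
          1 / Real.sqrt (ip π u u) * ∑ x, π x * u x := by
        rw [mul_sum]; exact sum_congr rfl fun x _ => by ring
      rw [this, hum, mul_zero]
    · have : ip π ((1 / Real.sqrt (ip π u u)) • u) ((1 / Real.sqrt (ip π u u)) • u) =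
          (1 / Real.sqrt (ip π u u)) ^ 2 * ip π u u := by
        simp only [ip, Pi.smul_apply, smul_eq_mul, mul_sum]
        exact sum_congr rfl fun x _ => by ring
      rw [this, div_pow, one_pow, Real.sq_sqrt hup.le]
      field_simp
  have hcont3 : Continuous fun f : Ω → ℝ => ip π (B.mulVec f) (B.mulVec f) := by
    unfold ip Matrix.mulVec dotProduct; fun_prop
  obtain ⟨f, hfK, hmax⟩ := hcomp.exists_isMaxOn hne hcont3.continuousOn
  set μ := ip π (B.mulVec f) (B.mulVec f) with hμ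
  have hf0 : f ≠ 0 := by
    intro h
    have h1 := hfK.2
    rw [h] at h1
    simp [ip] at h1
  have hall : ∀ g : Ω → ℝ, ∑ x, π x * g x = 0 →
      ip π (B.mulVec g) (B.mulVec g) ≤ μ * ip π g g := by
    intro g hg
    by_cases hg0 : g = 0
    · rw [hg0]; simp [ip]
    · have hgp := ip_self_pos hπ hg0
      set c := 1 / Real.sqrt (ip π g g) with hc
      have hc2 : c ^ 2 * ip π g g = 1 := by
        rw [hc, div_pow, one_pow, Real.sq_sqrt hgp.le]
        field_simp
      have h1 : c • g ∈ K := by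
        constructor
        · simp only [Pi.smul_apply, smul_eq_mul]
          have : ∑ x, π x * (c * g x) = c * ∑ x, π x * g x := by
            rw [mul_sum]; exact sum_congr rfl fun x _ => by ring
          rw [this, hg, mul_zero]
        · rw [← hc2]
          simp only [ip, Pi.smul_apply, smul_eq_mul, mul_sum]
          exact sum_congr rfl fun x _ => by ring
      have h2 : ip π (B.mulVec (c • g)) (B.mulVec (c • g)) ≤ μ := hmax h1
      have h3 : ip π (B.mulVec (c • g)) (B.mulVec (c • g)) =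
          c ^ 2 * ip π (B.mulVec g) (B.mulVec g) := by
        rw [Matrix.mulVec_smul]
        simp only [ip, Pi.smul_apply, smul_eq_mul, mul_sum]
        exact sum_congr rfl fun x _ => by ring
      rw [h3] at h2
      have h4 : ip π (B.mulVec g) (B.mulVec g) =
          (c ^ 2 * ip π g g) * ip π (B.mulVec g) (B.mulVec g) := by rw [hc2, one_mul]
      rw [h4]
      have := mul_le_mul_of_nonneg_right h2 hgp.le
      linarith
  refine ⟨μ, f, hf0, hfK.1, ?_, hall⟩
  -- the first order condition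
  set h : Ω → ℝ := (dagger π B).mulVec f - μ • f with hh
  have hB1 : ∀ g : Ω → ℝ, ∑ x, π x * (dagger π B).mulVec g x = ∑ x, π x * g x := by
    intro g
    have h1 := adj hπ B g (fun _ => 1)
    have h2 : B.mulVec (fun _ => 1) = fun _ => (1 : ℝ) := by
      ext x
      simp only [Matrix.mulVec, dotProduct, mul_one]
      exact hB.row_sum x
    rw [h2] at h1
    simp only [ip, mul_one] at h1
    rw [h1, hB.mean]
  have hhm : ∑ x, π x * h x = 0 := by
    simp only [hh, Pi.sub_apply, Pi.smul_apply, smul_eq_mul, mul_sub, sum_sub_distrib]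
    rw [hB1, hfK.1]
    have : ∑ x, π x * (μ * f x) = μ * ∑ x, π x * f x := by
      rw [mul_sum]; exact sum_congr rfl fun x _ => by ring
    rw [this, hfK.1]; ring
  have hquad : ∀ t : ℝ, 0 ≤ 2 * t * (-(ip π h h)) + t ^ 2 * (μ * ip π h h -
      ip π (B.mulVec h) (B.mulVec h)) := by
    intro t
    have h1 : ∑ x, π x * (f + t • h) x = 0 := by
      simp only [Pi.add_apply, Pi.smul_apply, smul_eq_mul, mul_add, sum_add_distrib]
      have : ∑ x, π x * (t * h x) = t * ∑ x, π x * h x := by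
        rw [mul_sum]; exact sum_congr rfl fun x _ => by ring
      rw [this, hhm, hfK.1]; ring
    have h2 := hall (f + t • h) h1
    rw [Matrix.mulVec_add, Matrix.mulVec_smul, ip_add, ip_add, hfK.2, ← hμ, ← adj hπ] at h2
    have h3 : ip π ((dagger π B).mulVec f) h = μ * ip π f h + ip π h h := by
      have : (dagger π B).mulVec f = μ • f + h := by rw [hh]; abel
      rw [this]
      simp only [ip, Pi.add_apply, Pi.smul_apply, smul_eq_mul, mul_sum, ← sum_add_distrib]
      exact sum_congr rfl fun x _ => by ring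
    rw [h3] at h2
    nlinarith
  have hzero : ip π h h = 0 := by
    by_contra hne0
    have hpos : 0 < ip π h h :=
      lt_of_le_of_ne (ip_self_nonneg (fun x => (hπ x).le) h) (Ne.symm hne0)
    set a := ip π h h with ha
    set b := μ * a - ip π (B.mulVec h) (B.mulVec h) with hb
    have hb0 : 0 ≤ b := by
      have := hall h hhm
      linarith
    have h1 := hquad (a / (b + a))
    have hba : 0 < b + a := by linarith
    have h2 : 2 * (a / (b + a)) * (-a) + (a / (b + a)) ^ 2 * b < 0 := by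
      have h3 : a / (b + a) * b ≤ a := by
        rw [div_mul_eq_mul_div, div_le_iff₀ hba]
        nlinarith
      have h4 : 0 < a / (b + a) := div_pos hpos hba
      have h5 : (a / (b + a)) ^ 2 * b = (a / (b + a)) * (a / (b + a) * b) := by ring
      rw [h5]
      have h6 : (a / (b + a)) * (a / (b + a) * b) ≤ (a / (b + a)) * a :=
        mul_le_mul_of_nonneg_left h3 h4.le
      nlinarith
    linarith
  have hh0 : h = 0 := by
    by_contra hne0
    have := ip_self_pos hπ hne0
    linarith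
  rw [hh] at hh0
  exact sub_eq_zero.mp hh0

/-- the variational bound -/
theorem le_lam2 [Nontrivial Ω] {π : Ω → ℝ} (hπ : ∀ x, 0 < π x) {B : Matrix Ω Ω ℝ}
    (hB : Pres π B) (g : Ω → ℝ) (hg : ∑ x, π x * g x = 0) :
    ip π (B.mulVec g) (B.mulVec g) ≤ lam2 π (dagger π B) * ip π g g := by
  obtain ⟨μ, f, hf0, hf1, hf2, hall⟩ := exists_eig hπ hB
  have h1 : μ ≤ lam2 π (dagger π B) := le_csSup (bdd hπ hB) ⟨f, hf0, hf1, hf2⟩
  exact (hall g hg).trans
    (mul_le_mul_of_nonneg_right h1 (ip_self_nonneg (fun x => (hπ x).le) g))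

theorem lam2_le_one [Nontrivial Ω] {π : Ω → ℝ} (hπ : ∀ x, 0 < π x) {B : Matrix Ω Ω ℝ}
    (hB : Pres π B) : lam2 π (dagger π B) ≤ 1 := by
  obtain ⟨μ, f, hf0, hf1, hf2, _⟩ := exists_eig hπ hB
  refine csSup_le ⟨μ, f, hf0, hf1, hf2⟩ ?_
  rintro l ⟨f, hf, -, hl⟩
  have h1 := eig_eq hπ hl
  have h2 := hB.contract (fun x => (hπ x).le) f
  have h3 := ip_self_pos hπ hf
  by_contra hcon
  push Not at hcon
  nlinarith

theorem lazy_pow (α : ℝ) (M : Matrix Ω Ω ℝ) (n : ℕ) (f : Ω → ℝ) (x : Ω) :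
    (lazy α M ^ n).mulVec f x = ∑ j ∈ range (n + 1),
      ((1 - α) ^ j * α ^ (n - j) * (n.choose j : ℝ)) * (M ^ j).mulVec f x := by
  have hc : Commute ((1 - α) • M) (α • (1 : Matrix Ω Ω ℝ)) :=
    ((Commute.one_right M).smul_right α).smul_left (1 - α)
  rw [lazy, add_comm, hc.add_pow]
  rw [Matrix.sum_mulVec, Finset.sum_apply]
  refine Finset.sum_congr rfl fun j _ => ?_
  have : ((1 - α) • M) ^ j * (α • (1 : Matrix Ω Ω ℝ)) ^ (n - j) * ((n.choose j : ℕ) : Matrix Ω Ω ℝ) =
      ((1 - α) ^ j * α ^ (n - j) * (n.choose j : ℝ)) • M ^ j := by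
    rw [smul_pow, smul_pow, one_pow, ← nsmul_eq_mul', ← Nat.cast_smul_eq_nsmul ℝ,
      smul_mul_smul_comm, mul_one, smul_smul]
    congr 1
    ring
  rw [this, Matrix.smul_mulVec, Pi.smul_apply, smul_eq_mul]

theorem binom (α w : ℝ) (n : ℕ) :
    ∑ j ∈ range (n + 1), ((1 - α) ^ j * α ^ (n - j) * (n.choose j : ℝ)) * w ^ j =
      ((1 - α) * w + α) ^ n := by
  rw [add_pow]
  refine Finset.sum_congr rfl fun j _ => ?_
  rw [mul_pow]; ring

/-- The key estimate. -/
theorem key [Nontrivial Ω] {π : Ω → ℝ} (hπ : ∀ x, 0 < π x) {M : Matrix Ω Ω ℝ}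
    (hM : Pres π M) {α : ℝ} (h0 : 0 < α) (h1 : α < 1) {k : ℕ} (hk : 1 ≤ k) :
    ∃ n : ℕ, 1 ≤ n ∧ (1 - α) / 10 * (gap π (dagger π (M ^ k)) / k) ≤
      gap π (dagger π (lazy α M ^ n)) / n := by
  set p := 1 - α with hp
  have hp0 : 0 < p := by linarith
  have hp1 : p < 1 := by linarith
  have hk' : (1 : ℝ) ≤ k := by exact_mod_cast hk
  have hkp : (0 : ℝ) < 4 * k / p := by positivity
  set n := ⌈4 * (k : ℝ) / p⌉₊ with hn
  have hn1 : 4 * (k : ℝ) / p ≤ n := Nat.le_ceil _
  have hn2 : (n : ℝ) < 4 * k / p + 1 := Nat.ceil_lt_add_one hkp.le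
  have hnpos : 1 ≤ n := Nat.one_le_iff_ne_zero.mpr (by
    intro h; rw [h] at hn1; simp at hn1; linarith)
  have hn' : (0 : ℝ) < n := by exact_mod_cast hnpos
  refine ⟨n, hnpos, ?_⟩
  -- the binomial tail
  have htail : (2 : ℝ) ^ k * (p * (1 / 2) + α) ^ n ≤ 1 / 2 := by
    have e1 : p * (1 / 2) + α ≤ Real.exp (-(p / 2)) := by
      have := Real.add_one_le_exp (-(p / 2))
      linarith
    have e2 : (p * (1 / 2) + α) ^ n ≤ Real.exp (-(p / 2)) ^ n :=
      pow_le_pow_left₀ (by positivity) e1 n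
    have e3 : Real.exp (-(p / 2)) ^ n ≤ Real.exp (-(2 * (k : ℝ))) := by
      rw [← Real.exp_nat_mul]
      apply Real.exp_le_exp.mpr
      rw [div_le_iff₀ hp0] at hn1
      linarith
    have e4 : Real.exp (-(2 * (k : ℝ))) = Real.exp (-2) ^ k := by
      rw [← Real.exp_nat_mul]; congr 1; ring
    have e5 : Real.exp (-2) ≤ 1 / 4 := by
      rw [Real.exp_neg, ← one_div]
      apply one_div_le_one_div_of_le (by norm_num)
      have h := Real.exp_one_gt_d9
      have : Real.exp 2 = Real.exp 1 * Real.exp 1 := by rw [← Real.exp_add]; norm_num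
      rw [this]
      nlinarith
    calc (2 : ℝ) ^ k * (p * (1 / 2) + α) ^ n ≤ 2 ^ k * Real.exp (-2) ^ k := by
          rw [← e4]
          exact mul_le_mul_of_nonneg_left (e2.trans e3) (by positivity)
      _ = (2 * Real.exp (-2)) ^ k := by rw [mul_pow]
      _ ≤ (1 / 2) ^ k := pow_le_pow_left₀ (by positivity) (by linarith) k
      _ ≤ (1 / 2) ^ 1 := pow_le_pow_of_le_one (by norm_num) (by norm_num) hk
      _ = 1 / 2 := pow_one _
  set lam := lam2 π (dagger π (M ^ k)) with hlam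
  have hlam0 : 0 ≤ lam := lam2_nonneg hπ _
  have hlam1 : lam ≤ 1 := lam2_le_one hπ (hM.pow k)
  have hπ' : ∀ x, 0 ≤ π x := fun x => (hπ x).le
  -- contraction of the lazy power on mean-zero functions
  have hcon : ∀ f : Ω → ℝ, ∑ x, π x * f x = 0 →
      ip π ((lazy α M ^ n).mulVec f) ((lazy α M ^ n).mulVec f) ≤ (1 - (1 - lam) / 2) * ip π f f := by
    intro f hf
    set a : ℕ → ℝ := fun j => ip π ((M ^ j).mulVec f) ((M ^ j).mulVec f) with ha
    have ha0 : a 0 = ip π f f := by simp [ha]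
    have hstep : ∀ i j, a (i + j) ≤ a i := by
      intro i j
      have h2 := (hM.pow j).contract hπ' ((M ^ i).mulVec f)
      rw [Matrix.mulVec_mulVec, ← pow_add, add_comm j i] at h2
      exact h2
    have hak : a k ≤ lam * a 0 := by
      rw [ha0]; exact le_lam2 hπ (hM.pow k) f hf
    have hak0 : a k ≤ a 0 := by have := hstep 0 k; rwa [zero_add] at this
    have hapos : ∀ j, 0 ≤ a j := fun j => ip_self_nonneg hπ' _
    have haj : ∀ j, a j ≤ a k + (a 0 - a k) * (2 ^ k * (1 / 2) ^ j) := by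
      intro j
      rcases le_or_gt k j with h | h
      · have h2 := hstep k (j - k)
        rw [Nat.add_sub_cancel' h] at h2
        have : 0 ≤ (a 0 - a k) * (2 ^ k * (1 / 2) ^ j) :=
          mul_nonneg (by linarith) (by positivity)
        linarith
      · have h2 : a j ≤ a 0 := by have := hstep 0 j; rwa [zero_add] at this
        have h3 : (1 : ℝ) ≤ 2 ^ k * (1 / 2) ^ j := by
          calc (1 : ℝ) = 2 ^ j * (1 / 2) ^ j := by rw [← mul_pow]; norm_num
            _ ≤ 2 ^ k * (1 / 2) ^ j := by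
                apply mul_le_mul_of_nonneg_right _ (by positivity)
                exact pow_le_pow_right₀ (by norm_num) h.le
        have h4 : (a 0 - a k) * 1 ≤ (a 0 - a k) * (2 ^ k * (1 / 2) ^ j) :=
          mul_le_mul_of_nonneg_left h3 (by linarith)
        linarith
    set c : ℕ → ℝ := fun j => (1 - α) ^ j * α ^ (n - j) * (n.choose j : ℝ) with hc
    have hc0 : ∀ j, 0 ≤ c j := fun j => by
      have : 0 ≤ 1 - α := by linarith
      simp only [hc]; positivity
    have hc1 : ∑ j ∈ range (n + 1), c j = 1 := by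
      have := binom α 1 n
      simpa [hc] using this
    have hc2 : ∑ j ∈ range (n + 1), c j * (1 / 2) ^ j = (p * (1 / 2) + α) ^ n := by
      rw [← binom α (1 / 2) n]
    have hjen : ip π ((lazy α M ^ n).mulVec f) ((lazy α M ^ n).mulVec f) ≤
        ∑ j ∈ range (n + 1), c j * a j := by
      have h2 : ∀ x, (lazy α M ^ n).mulVec f x * (lazy α M ^ n).mulVec f x ≤
          ∑ j ∈ range (n + 1), c j * ((M ^ j).mulVec f x * (M ^ j).mulVec f x) := by
        intro x
        have h3 := (even_two.convexOn_pow (𝕜 := ℝ)).map_sum_le (t := range (n + 1)) (w := c)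
          (p := fun j => (M ^ j).mulVec f x) (fun j _ => hc0 j) hc1 (fun j _ => Set.mem_univ _)
        simp only [smul_eq_mul] at h3
        rw [lazy_pow]
        calc _ = (∑ j ∈ range (n + 1), c j * (M ^ j).mulVec f x) ^ 2 := by rw [sq]
          _ ≤ _ := h3
          _ = _ := sum_congr rfl fun j _ => by ring
      calc _ ≤ ∑ x, π x * ∑ j ∈ range (n + 1), c j *
            ((M ^ j).mulVec f x * (M ^ j).mulVec f x) :=
            sum_le_sum fun x _ => mul_le_mul_of_nonneg_left (h2 x) (hπ' x)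
        _ = _ := by
            simp only [mul_sum]
            rw [sum_comm]
            refine sum_congr rfl fun j _ => ?_
            simp only [ha, ip, mul_sum]
            exact sum_congr rfl fun x _ => by ring
    have hfin : ∑ j ∈ range (n + 1), c j * a j ≤
        a k + (a 0 - a k) * (2 ^ k * (p * (1 / 2) + α) ^ n) := by
      calc ∑ j ∈ range (n + 1), c j * a j
          ≤ ∑ j ∈ range (n + 1), c j * (a k + (a 0 - a k) * (2 ^ k * (1 / 2) ^ j)) :=
            sum_le_sum fun j _ => mul_le_mul_of_nonneg_left (haj j) (hc0 j)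
        _ = a k * ∑ j ∈ range (n + 1), c j +
            (a 0 - a k) * (2 ^ k * ∑ j ∈ range (n + 1), c j * (1 / 2) ^ j) := by
            rw [mul_sum, mul_sum, mul_sum, ← sum_add_distrib]
            exact sum_congr rfl fun j _ => by ring
        _ = _ := by rw [hc1, hc2, mul_one]
    have h5 : (a 0 - a k) * (2 ^ k * (p * (1 / 2) + α) ^ n) ≤ (a 0 - a k) * (1 / 2) :=
      mul_le_mul_of_nonneg_left htail (by linarith)
    rw [← ha0]
    nlinarith [hjen, hfin, h5, hak]
  -- the gap of the lazy power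
  have hL : Pres π (lazy α M) := by
    refine ⟨fun i j => ?_, fun i => ?_, fun j => ?_⟩
    · simp only [lazy, Matrix.add_apply, Matrix.smul_apply, smul_eq_mul]
      have h2 := (Pres.one π).nonneg i j
      have h3 := hM.nonneg i j
      have : 0 ≤ 1 - α := by linarith
      positivity
    · simp only [lazy, Matrix.add_apply, Matrix.smul_apply, smul_eq_mul, sum_add_distrib,
        ← mul_sum, hM.row_sum, (Pres.one π).row_sum]
      ring
    · simp only [lazy, Matrix.add_apply, Matrix.smul_apply, smul_eq_mul, mul_add,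
        sum_add_distrib]
      have e1 : ∑ x, π x * (α * (1 : Matrix Ω Ω ℝ) x j) = α * π j := by
        rw [← (Pres.one π).stat j, mul_sum]; exact sum_congr rfl fun x _ => by ring
      have e2 : ∑ x, π x * ((1 - α) * M x j) = (1 - α) * π j := by
        rw [← hM.stat j, mul_sum]; exact sum_congr rfl fun x _ => by ring
      rw [e1, e2]; ring
  have hgap : (1 - lam) / 2 ≤ gap π (dagger π (lazy α M ^ n)) := by
    have h2 : lam2 π (dagger π (lazy α M ^ n)) ≤ 1 - (1 - lam) / 2 := by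
      obtain ⟨μ, f, hf0, hf1, hf2, _⟩ := exists_eig hπ (hL.pow n)
      refine csSup_le ⟨μ, f, hf0, hf1, hf2⟩ ?_
      rintro l ⟨f, hf, hfm, hl⟩
      have h3 := eig_eq hπ hl
      have h4 := hcon f hfm
      have h5 := ip_self_pos hπ hf
      rw [← h3] at h4
      exact le_of_mul_le_mul_right h4 h5
    rw [gap]; linarith
  have hnk : (n : ℝ) ≤ 5 * k / p := by
    have : (1 : ℝ) ≤ k / p := by rw [le_div_iff₀ hp0]; linarith
    have e : 5 * (k : ℝ) / p = 4 * k / p + k / p := by ring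
    rw [e]; linarith
  have hg0 : 0 ≤ 1 - lam := by linarith
  calc p / 10 * (gap π (dagger π (M ^ k)) / k) = (1 - lam) / 2 / (5 * k / p) := by
        rw [gap, ← hlam]
        have : (k : ℝ) ≠ 0 := by positivity
        field_simp
        ring
    _ ≤ (1 - lam) / 2 / n := div_le_div_of_nonneg_left (by linarith) hn' hnk
    _ ≤ _ := div_le_div_of_nonneg_right hgap hn'.le

theorem IsChain.pi_pos {M : Matrix Ω Ω ℝ} {π : Ω → ℝ} (h : IsChain M π) (x : Ω) : 0 < π x := by
  have hpres : Pres π M := ⟨h.nonneg, h.row_sum, h.stationary⟩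
  obtain ⟨y, hy⟩ : ∃ y, 0 < π y := by
    by_contra hcon
    push Not at hcon
    have h1 : ∑ i, π i ≤ 0 := sum_nonpos fun i _ => hcon i
    rw [h.pi_sum] at h1
    linarith
  obtain ⟨n, hn⟩ := h.irreducible y x
  rw [← (hpres.pow n).stat x]
  refine lt_of_lt_of_le (mul_pos hy hn) ?_
  exact single_le_sum (f := fun i => π i * (M ^ n) i x)
    (fun i _ => mul_nonneg (h.pi_nonneg i) ((hpres.pow n).nonneg i x)) (mem_univ y)

/-- The dimension-free bound. -/
theorem main [Nontrivial Ω] {M : Matrix Ω Ω ℝ} {π : Ω → ℝ} (h : IsChain M π) {α : ℝ}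
    (h0 : 0 < α) (h1 : α < 1) : (1 - α) / 10 * gps π M ≤ gps π (lazy α M) := by
  have hπ := h.pi_pos
  have hpres : Pres π M := ⟨h.nonneg, h.row_sum, h.stationary⟩
  have hp : 0 < (1 - α) / 10 := by linarith
  have hbdd : BddAbove {r : ℝ | ∃ k : ℕ, 1 ≤ k ∧ r = gap π (dagger π (lazy α M ^ k)) / k} := by
    refine ⟨1, ?_⟩
    rintro r ⟨k, hk, rfl⟩
    have hk' : (1 : ℝ) ≤ k := by exact_mod_cast hk
    have := lam2_nonneg hπ (lazy α M ^ k)
    rw [div_le_one (by linarith), gap]
    linarith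
  have h2 : gps π M ≤ gps π (lazy α M) / ((1 - α) / 10) := by
    refine csSup_le ⟨_, 1, le_rfl, rfl⟩ ?_
    rintro r ⟨k, hk, rfl⟩
    rw [le_div_iff₀ hp, mul_comm]
    obtain ⟨n, hn, hle⟩ := key hπ hpres h0 h1 hk
    exact hle.trans (le_csSup hbdd ⟨n, hn, rfl⟩)
  rw [le_div_iff₀ hp] at h2
  linarith

end

/-- The pseudo spectral gap of the `α`-lazy version is at least `f(α, γ_ps(M))` with the
dimension-free function `f(α, g) = (1-α) g / 10`, for every irreducible chain `M` on at least two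
states (in particular for every ergodic one). -/
theorem result :
    ∃ f : ℝ → ℝ → ℝ, (∀ α g : ℝ, 0 < α → α < 1 → 0 < g → g ≤ 1 → 0 < f α g) ∧
      (∀ α g : ℝ, f α g = (1 - α) * g / 10) ∧
      ∀ (d : ℕ), 2 ≤ d → ∀ (M : Matrix (Fin d) (Fin d) ℝ) (π : Fin d → ℝ), IsChain M π →
        ∀ α : ℝ, 0 < α → α < 1 → f α (gps π M) ≤ gps π (lazy α M) := by
  refine ⟨fun α g => (1 - α) * g / 10, fun α g h0 h1 hg _ => ?_, fun _ _ => rfl, ?_⟩
  · have : 0 < 1 - α := by linarith
    positivity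
  · intro d hd M π hM α h0 h1
    have : Nontrivial (Fin d) := Fin.nontrivial_iff_two_le.mpr hd
    have h := main hM h0 h1
    have e : (1 - α) * gps π M / 10 = (1 - α) / 10 * gps π M := by ring
    change (1 - α) * gps π M / 10 ≤ _
    rw [e]
    exact h

end Pool.Agent.Results.MP_67c61c_pr.LazyPseudoGap
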